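import Mathlib

/-!
# Infinite sets of integers with independent values, chosen from given windows
-/

set_option autoImplicit false

namespace Pool.Agent.Run7.h643.IS

open MvPolynomial Module

/-- a sequence, chosen one member after the other -/
theorem exists_seq {α : Type} [Inhabited α] (P : ℕ → (ℕ → α) → α → Prop)
    (hdep : ∀ j a a' b, (∀ i, i < j → a i = a' i) → P j a b → P j a' b) (h : ∀ j a, ∃ b, P j a b) :
    ∃ a : ℕ → α, ∀ j, P j a (a j) := by
  classical
  choose f hf using h
  let g : (j : ℕ) → ((i : ℕ) → i < j → α) → α := fun j ih => f j fun i => if hi : i < j then ih i hi else default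
  let a : ℕ → α := WellFounded.fix Nat.lt_wfRel.wf g
  have ha : ∀ j, a j = g j fun i _ => a i := fun j => WellFounded.fix_eq Nat.lt_wfRel.wf g j
  refine ⟨a, fun j => ?_⟩
  have h1 := hf j fun i => if _hi : i < j then a i else default
  have h2 : a j = f j fun i => if _hi : i < j then a i else default := ha j
  rw [h2]
  refine hdep j _ _ _ (fun i hi => ?_) h1
  simp only [dif_pos hi]

variable {E κ Ω : Type}

/-- one window, relative to `q` constants, with at most `e` exceptions -/
def Win1 (Adm : E → (κ → ℂ) → Prop) (Big : ℕ → ℕ → Ω → Prop) (In : Ω → E → Prop) (q r e C : ℕ) : Prop :=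
  ∀ (δ : ℕ) (o : Ω), Big C δ o → ∀ c : Fin q → ℂ, ∃ S : Finset E, S.card ≤ e ∧
    ∀ A : Finset E, A.card = r → (∀ n ∈ A, In o n ∧ n ∉ S) →
    ∀ x : E → κ → ℂ, (∀ n ∈ A, Adm n (x n)) →
    ∀ K : IntermediateField ℚ ℂ, FiniteDimensional ℚ K → finrank ℚ K ≤ δ →
    ∀ Q : MvPolynomial (Fin q ⊕ (A × κ)) K, Q.totalDegree ≤ δ →
      aeval (Sum.elim c fun p : A × κ => x p.1 p.2) Q = 0 → ∀ y : A × κ → ℂ, aeval (Sum.elim c y) Q = 0

theorem totalDegree_aeval_le' {σ τ K : Type} [Field K] (P : MvPolynomial σ K) (f : σ → MvPolynomial τ K)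
    (hf : ∀ i, (f i).totalDegree ≤ 1) : (aeval f P : MvPolynomial τ K).totalDegree ≤ P.totalDegree := by
  classical
  rw [aeval_def, eval₂_eq]
  refine (totalDegree_finsetSum _ _).trans (Finset.sup_le fun d hd => ?_)
  refine (totalDegree_mul _ _).trans ?_
  rw [show (algebraMap K (MvPolynomial τ K)) (coeff d P) = C (coeff d P) from rfl, totalDegree_C, zero_add]
  refine (totalDegree_finsetProd _ _).trans ?_
  refine le_trans (Finset.sum_le_sum fun i _ => (totalDegree_pow _ _).trans (Nat.mul_le_mul_left _ (hf i))) ?_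
  simp only [mul_one]
  exact le_totalDegree hd

section Step

variable {q s : ℕ} (w : Fin q → ℂ) (ω : Fin s → ℂ) (v : E → κ → ℂ)

open Classical in
/-- the polynomial in the variables outside `U` -/
noncomputable def Gp {K : IntermediateField ℚ ℂ} (P : MvPolynomial (Fin q ⊕ (E × κ)) K) (x : E → κ → ℂ)
    (U : Finset E) : MvPolynomial (E × κ) ℂ :=
  aeval (Sum.elim (fun a => C (w a)) fun p : E × κ => if p.1 ∈ U then C (x p.1 p.2) else X p) P

open Classical in
theorem eval_Gp {K : IntermediateField ℚ ℂ} (P : MvPolynomial (Fin q ⊕ (E × κ)) K) (x : E → κ → ℂ)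
    (U : Finset E) (y : E × κ → ℂ) : eval y (Gp w P x U) =
      aeval (Sum.elim w fun p : E × κ => if p.1 ∈ U then x p.1 p.2 else y p) P := by
  have h1 : (eval y : MvPolynomial (E × κ) ℂ →+* ℂ) = (aeval y : MvPolynomial (E × κ) ℂ →ₐ[ℂ] ℂ).toRingHom := by
    ext <;> simp
  rw [h1]
  show (aeval y : MvPolynomial (E × κ) ℂ →ₐ[ℂ] ℂ) _ = _
  rw [Gp, ← AlgHom.restrictScalars_apply K (aeval y : MvPolynomial (E × κ) ℂ →ₐ[ℂ] ℂ), ← AlgHom.comp_apply, comp_aeval]
  congr 2
  funext i
  rcases i with a | i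
  · simp
  · simp only [Sum.elim_inr]
    split_ifs <;> simp

/-- the constants: `w`, the periods `ω` and the values at the elements of `U` -/
noncomputable def cst (U : Finset E) : Fin q ⊕ (Fin s ⊕ (U × κ)) → ℂ :=
  Sum.elim w (Sum.elim ω fun p => v p.1 p.2)

open Classical in
/-- the step from one window to the next -/
theorem step {K : IntermediateField ℚ ℂ} {D : ℕ} (U A : Finset E) (x : E → κ → ℂ)
    (hx : ∀ n ∈ U, ∀ k, ∃ b : Fin s → ℤ, x n k = v n k + ∑ j, (b j : ℂ) * ω j)
    (hwin : ∀ Q : MvPolynomial ((Fin q ⊕ (Fin s ⊕ (U × κ))) ⊕ (A × κ)) K, Q.totalDegree ≤ D →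
      aeval (Sum.elim (cst w ω v U) fun p : A × κ => x p.1 p.2) Q = 0 →
      ∀ y : A × κ → ℂ, aeval (Sum.elim (cst w ω v U) y) Q = 0)
    (P : MvPolynomial (Fin q ⊕ (E × κ)) K) (hP : P.totalDegree ≤ D) (h0 : Gp w P x (U ∪ A) = 0) : Gp w P x U = 0 := by
  classical
  by_contra hne
  obtain ⟨y, hy⟩ : ∃ y : E × κ → ℚ, eval (fun i => ((y i : ℚ) : ℂ)) (Gp w P x U) ≠ 0 := by
    by_contra hcon
    push Not at hcon
    apply hne
    have hinf : ∀ _i : E × κ, (Set.range (fun a : ℚ => (a : ℂ))).Infinite := fun _ =>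
      Set.infinite_range_of_injective Rat.cast_injective
    refine MvPolynomial.funext_set (s := fun _ => Set.range (fun a : ℚ => (a : ℂ))) ?_ ?_
    · exact hinf
    · intro z hz
      choose y hy using fun i => hz i (Set.mem_univ i)
      rw [map_zero, ← hcon y]
      congr 1
      congr 1
      funext i
      exact (hy i).symm
  have hx' : ∀ p : E × κ, ∃ b : Fin s → ℤ, p.1 ∈ U → x p.1 p.2 = v p.1 p.2 + ∑ j, (b j : ℂ) * ω j := by
    intro p
    by_cases h : p.1 ∈ U
    · obtain ⟨b, hb⟩ := hx p.1 h p.2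
      exact ⟨b, fun _ => hb⟩
    · exact ⟨0, fun h' => absurd h' h⟩
  choose b hb using hx'
  set φ : Fin q ⊕ (E × κ) → MvPolynomial ((Fin q ⊕ (Fin s ⊕ (U × κ))) ⊕ (A × κ)) K :=
    Sum.elim (fun a => X (Sum.inl (Sum.inl a))) fun p : E × κ =>
      if hU : p.1 ∈ U then X (Sum.inl (Sum.inr (Sum.inr (⟨p.1, hU⟩, p.2)))) +
        ∑ j, C ((b p j : ℤ) : K) * X (Sum.inl (Sum.inr (Sum.inl j)))
      else if hA : p.1 ∈ A then X (Sum.inr (⟨p.1, hA⟩, p.2)) else C ((y p : ℚ) : K) with hφ
  have hφd : ∀ i, (φ i).totalDegree ≤ 1 := by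
    intro i
    rcases i with a | p
    · rw [hφ]
      simp only [Sum.elim_inl]
      exact (totalDegree_X _).le
    · rw [hφ]
      simp only [Sum.elim_inr]
      split_ifs
      · refine (totalDegree_add _ _).trans (max_le (totalDegree_X _).le ?_)
        refine (totalDegree_finsetSum _ _).trans (Finset.sup_le fun j _ => ?_)
        refine (totalDegree_mul _ _).trans ?_
        rw [totalDegree_C, zero_add]
        exact (totalDegree_X _).le
      · exact (totalDegree_X _).le
      · rw [totalDegree_C]; omega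
  have hval : ∀ z : A × κ → ℂ, aeval (Sum.elim (cst w ω v U) z) (aeval φ P) =
      aeval (Sum.elim w fun p : E × κ => if p.1 ∈ U then x p.1 p.2 else
        if hA : p.1 ∈ A then z (⟨p.1, hA⟩, p.2) else ((y p : ℚ) : ℂ)) P := by
    intro z
    rw [← AlgHom.comp_apply, comp_aeval]
    congr 2
    funext i
    rcases i with a | p
    · simp [hφ, cst]
    · simp only [hφ, Sum.elim_inr]
      by_cases hU : p.1 ∈ U
      · rw [dif_pos hU, if_pos hU, hb p hU, map_add, aeval_X, map_sum]
        congr 1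
        refine Finset.sum_congr rfl fun j _ => ?_
        rw [map_mul, aeval_X, aeval_C]
        simp [cst]
      · rw [dif_neg hU, if_neg hU]
        by_cases hA : p.1 ∈ A
        · rw [dif_pos hA, dif_pos hA, aeval_X]
          simp only [Sum.elim_inr]
        · rw [dif_neg hA, dif_neg hA, aeval_C]
          simp
  have h1 := hwin (aeval φ P) ((totalDegree_aeval_le' P φ hφd).trans hP) (by
    rw [hval]
    have h1 := eval_Gp w P x (U ∪ A) (fun i => ((y i : ℚ) : ℂ))
    rw [h0, map_zero] at h1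
    rw [h1]
    congr 2
    funext i
    rcases i with a | p
    · rfl
    · simp only [Sum.elim_inr]
      by_cases hU : p.1 ∈ U
      · rw [if_pos hU, if_pos (Finset.mem_union_left _ hU)]
      · rw [if_neg hU]
        by_cases hA : p.1 ∈ A
        · rw [dif_pos hA, if_pos (Finset.mem_union_right _ hA)]
        · rw [dif_neg hA, if_neg (by
            rw [Finset.mem_union]
            tauto)]) (fun p => ((y (p.1, p.2) : ℚ) : ℂ))
  rw [hval] at h1
  apply hy
  rw [eval_Gp, ← h1]
  congr 2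
  funext i
  rcases i with a | p
  · rfl
  · simp only [Sum.elim_inr]
    by_cases hU : p.1 ∈ U
    · rw [if_pos hU, if_pos hU]
    · rw [if_neg hU, if_neg hU]
      by_cases hA : p.1 ∈ A
      · rw [dif_pos hA]
      · rw [dif_neg hA]

end Step

end Pool.Agent.Run7.h643.IS
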