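import Mathlib
import Pool.Agent.Run7.h643.IS.Inf

/-!
# Infinite sets of integers with independent values: the main theorem
-/

set_option autoImplicit false

namespace Pool.Agent.Run7.h643.IS

open MvPolynomial Module

variable {E κ Ω : Type}

theorem Win1.mono {Adm : E → (κ → ℂ) → Prop} {Big : ℕ → ℕ → Ω → Prop} {In : Ω → E → Prop} {q r e C C' : ℕ}
    (hBig : ∀ C C' δ o, C ≤ C' → Big C' δ o → Big C δ o) (h : Win1 Adm Big In q r e C) (hC : C ≤ C') :
    Win1 Adm Big In q r e C' := fun δ o ho => h δ o (hBig _ _ _ _ hC ho)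

open Classical in
/-- the elements chosen before the step `J` -/
noncomputable def Us (a : ℕ → Finset E) (J : ℕ) : Finset E := (Finset.range J).biUnion a

theorem mem_Us {a : ℕ → Finset E} {J : ℕ} {n : E} : n ∈ Us a J ↔ ∃ i < J, n ∈ a i := by
  simp [Us]

open Classical in
theorem Us_succ (a : ℕ → Finset E) (J : ℕ) : Us a (J + 1) = Us a J ∪ a J := by
  ext n
  rw [Finset.mem_union, mem_Us, mem_Us]
  constructor
  · rintro ⟨i, hi, h⟩
    rcases Nat.lt_succ_iff_lt_or_eq.1 hi with h1 | h1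
    · exact Or.inl ⟨i, h1, h⟩
    · exact Or.inr (h1 ▸ h)
  · rintro (⟨i, hi, h⟩ | h)
    · exact ⟨i, by omega, h⟩
    · exact ⟨J, by omega, h⟩

theorem Us_card {a : ℕ → Finset E} {r : ℕ → ℕ} (h : ∀ i, (a i).card = r i) (J : ℕ) :
    (Us a J).card ≤ ∑ i ∈ Finset.range J, r i := by
  classical
  refine Finset.card_biUnion_le.trans (Finset.sum_le_sum fun i _ => (h i).le)

/-- the independence of the elements of `A` over those of `U` -/
def Ind {q s : ℕ} (Adm : E → (κ → ℂ) → Prop) (w : Fin q → ℂ) (ω : Fin s → ℂ) (v : E → κ → ℂ) (δ : ℕ)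
    (U A : Finset E) : Prop :=
  ∀ x : E → κ → ℂ, (∀ n ∈ A, Adm n (x n)) → ∀ K : IntermediateField ℚ ℂ, FiniteDimensional ℚ K → finrank ℚ K ≤ δ →
    ∀ Q : MvPolynomial ((Fin q ⊕ (Fin s ⊕ (U × κ))) ⊕ (A × κ)) K, Q.totalDegree ≤ δ →
      aeval (Sum.elim (cst w ω v U) fun p : A × κ => x p.1 p.2) Q = 0 →
      ∀ y : A × κ → ℂ, aeval (Sum.elim (cst w ω v U) y) Q = 0

theorem ind_of_win [Fintype κ] {q s r e C : ℕ} {Adm : E → (κ → ℂ) → Prop} {Big : ℕ → ℕ → Ω → Prop}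
    {In : Ω → E → Prop} (w : Fin q → ℂ) (ω : Fin s → ℂ) (v : E → κ → ℂ)
    (U : Finset E) (hw : Win1 Adm Big In (q + s + U.card * Fintype.card κ) r e C) (δ : ℕ) (o : Ω) (ho : Big C δ o) :
    ∃ S : Finset E, S.card ≤ e ∧ ∀ A : Finset E, A.card = r → (∀ n ∈ A, In o n ∧ n ∉ S) →
      Ind Adm w ω v δ U A := by
  classical
  have hcard : Fintype.card (Fin q ⊕ (Fin s ⊕ (U × κ))) = q + s + U.card * Fintype.card κ := by
    rw [Fintype.card_sum, Fintype.card_sum, Fintype.card_prod, Fintype.card_fin, Fintype.card_fin,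
      Fintype.card_coe, add_assoc]
  set e₀ := Fintype.equivFinOfCardEq hcard with he₀
  obtain ⟨S, hS, h⟩ := hw δ o ho fun i => cst w ω v U (e₀.symm i)
  refine ⟨S, hS, fun A hA hAS x hx K hK hKd Q hQ hQ0 y => ?_⟩
  have h1 := h A hA hAS x hx K hK hKd (rename (Sum.map e₀ id) Q) ((totalDegree_rename_le _ _).trans hQ) (by
    rw [aeval_rename, ← hQ0]
    congr 2
    funext i
    rcases i with i | i
    · simp
    · rfl) y
  rw [aeval_rename] at h1
  rw [← h1]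
  congr 2
  funext i
  rcases i with i | i
  · simp
  · rfl

/-- **Infinite sets.** -/
theorem inf [Fintype κ] {Adm : E → (κ → ℂ) → Prop} {Big : ℕ → ℕ → Ω → Prop} {In : Ω → E → Prop}
    (hBig : ∀ C C' δ o, C ≤ C' → Big C' δ o → Big C δ o) {s e₀ : ℕ} (ω : Fin s → ℂ) (v : E → κ → ℂ)
    (hbr : ∀ n z, Adm n z → ∀ k, ∃ b : Fin s → ℤ, z k = v n k + ∑ j, (b j : ℂ) * ω j)
    (hwin : ∀ q r, ∃ C, Win1 Adm Big In q r (q + e₀) C) (q : ℕ) (r : ℕ → ℕ) :
    ∃ C : ℕ → ℕ, ∀ (o : ℕ → Ω) (δ : ℕ → ℕ) (W : ℕ → Finset E → Prop),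
      (∀ J, Big (C J) (δ J) (o J)) →
      (∀ J (S : Finset E), S.card ≤ q + s + (∑ i ∈ Finset.range J, r i) * Fintype.card κ + e₀ →
        ∃ A, W J A ∧ A.card = r J ∧ ∀ n ∈ A, In (o J) n ∧ n ∉ S) →
      ∀ w : Fin q → ℂ, ∃ a : ℕ → Finset E,
        (∀ J, W J (a J) ∧ (a J).card = r J ∧ ∀ n ∈ a J, In (o J) n) ∧
        ∀ x : E → κ → ℂ, (∀ J, ∀ n ∈ a J, Adm n (x n)) → ∀ j₀ D : ℕ, (∀ J, j₀ ≤ J → D ≤ δ J) →
        ∀ K : IntermediateField ℚ ℂ, FiniteDimensional ℚ K → finrank ℚ K ≤ D →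
        ∀ P : MvPolynomial (Fin q ⊕ (E × κ)) K, P.totalDegree ≤ D →
          (∀ p : E × κ, Sum.inr p ∈ P.vars → ∃ J, p.1 ∈ a J) →
          aeval (Sum.elim w fun p : E × κ => x p.1 p.2) P = 0 →
          ∀ y : E → κ → ℂ, (∀ J < j₀, ∀ n ∈ a J, y n = x n) →
            aeval (Sum.elim w fun p : E × κ => y p.1 p.2) P = 0 := by
  classical
  choose C₁ hC₁ using hwin
  set R : ℕ → ℕ := fun J => ∑ i ∈ Finset.range J, r i with hR
  set C : ℕ → ℕ := fun J => ∑ m ∈ Finset.range (R J + 1), C₁ (q + s + m * Fintype.card κ) (r J) with hC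
  refine ⟨C, fun o δ W hN hW w => ?_⟩
  obtain ⟨a, ha⟩ := exists_seq (α := Finset E)
    (fun J a b => W J b ∧ b.card = r J ∧ (∀ n ∈ b, In (o J) n) ∧
      ((Us a J).card ≤ R J → Ind Adm w ω v (δ J) (Us a J) b)) (by
    intro J a a' b haa' hP
    have h1 : Us a J = Us a' J := by
      ext n
      rw [mem_Us, mem_Us]
      constructor
      · rintro ⟨i, hi, h⟩
        exact ⟨i, hi, haa' i hi ▸ h⟩
      · rintro ⟨i, hi, h⟩
        exact ⟨i, hi, (haa' i hi).symm ▸ h⟩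
    rw [← h1]
    exact hP) (by
    intro J a
    by_cases hU : (Us a J).card ≤ R J
    · have h1 : Win1 Adm Big In (q + s + (Us a J).card * Fintype.card κ) (r J)
          (q + s + (Us a J).card * Fintype.card κ + e₀) (C J) := by
        refine (hC₁ _ _).mono hBig ?_
        rw [hC]
        exact Finset.single_le_sum (f := fun m => C₁ (q + s + m * Fintype.card κ) (r J)) (fun _ _ => Nat.zero_le _)
          (Finset.mem_range.2 (Nat.lt_succ_of_le hU))
      obtain ⟨S, hS, h2⟩ := ind_of_win w ω v (Us a J) h1 (δ J) (o J) (hN J)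
      obtain ⟨A, hA1, hA2, hA3⟩ := hW J S (hS.trans (by
        have := Nat.mul_le_mul_right (Fintype.card κ) hU
        show _ ≤ q + s + R J * Fintype.card κ + e₀
        omega))
      exact ⟨A, hA1, hA2, fun n hn => (hA3 n hn).1, fun _ => h2 A hA2 hA3⟩
    · obtain ⟨A, hA1, hA2, hA3⟩ := hW J ∅ (by simp)
      exact ⟨A, hA1, hA2, fun n hn => (hA3 n hn).1, fun h => absurd h hU⟩)
  refine ⟨a, fun J => ⟨(ha J).1, (ha J).2.1, (ha J).2.2.1⟩, fun x hx j₀ D hD K hK hKD P hP hPv hP0 y hy => ?_⟩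
  have hUR : ∀ J, (Us a J).card ≤ R J := fun J => Us_card (fun i => (ha i).2.1) J
  -- all variables are in a finite part
  obtain ⟨J₁, hJ₁⟩ : ∃ J₁, ∀ p : E × κ, Sum.inr p ∈ P.vars → p.1 ∈ Us a J₁ := by
    choose f hf using fun p : {p : E × κ // Sum.inr p ∈ P.vars} => hPv p.1 p.2
    have hfin : Finite {p : E × κ // Sum.inr p ∈ P.vars} := by
      have h1 : Function.Injective fun p : {p : E × κ // Sum.inr p ∈ P.vars} => (⟨Sum.inr p.1, p.2⟩ : P.vars) := by
        intro p p' hpp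
        have h2 := congrArg Subtype.val hpp
        exact Subtype.ext (Sum.inr.inj h2)
      exact Finite.of_injective _ h1
    obtain ⟨B, hB⟩ := (Set.finite_range f).bddAbove
    refine ⟨B + 1, fun p hp => mem_Us.2 ⟨f ⟨p, hp⟩, ?_, hf ⟨p, hp⟩⟩⟩
    exact Nat.lt_succ_of_le (hB ⟨⟨p, hp⟩, rfl⟩)
  have hbig : ∀ J, J₁ ≤ J → Gp w P x (Us a J) = 0 := by
    intro J hJ
    apply MvPolynomial.funext
    intro z
    rw [eval_Gp, map_zero, ← hP0]
    refine eval₂Hom_congr' rfl ?_ rfl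
    intro i hi _
    rcases i with i | p
    · rfl
    · obtain ⟨i', hi', h1⟩ := mem_Us.1 (hJ₁ p hi)
      have h2 : p.1 ∈ Us a J := mem_Us.2 ⟨i', by omega, h1⟩
      show (if p.1 ∈ Us a J then x p.1 p.2 else z p) = x p.1 p.2
      rw [if_pos h2]
  have hdown : ∀ m J, J + m = max J₁ j₀ → j₀ ≤ J → Gp w P x (Us a J) = 0 := by
    intro m
    induction m with
    | zero =>
      intro J hJ _
      exact hbig J (by
        have := le_max_left J₁ j₀
        omega)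
    | succ m ih =>
      intro J hJ hJ0
      have h1 := ih (J + 1) (by omega) (by omega)
      rw [Us_succ] at h1
      refine step w ω v (Us a J) (a J) x ?_ (fun Q hQ hQ0 => ?_) P hP h1
      · intro n hn k
        obtain ⟨i, hi, h2⟩ := mem_Us.1 hn
        exact hbr n (x n) (hx i n h2) k
      · exact (ha J).2.2.2 (hUR J) x (hx J) K hK (hKD.trans (hD J hJ0)) Q (hQ.trans (hD J hJ0)) hQ0
  have hfin := hdown (max J₁ j₀ - j₀) j₀ (by
    have := le_max_right J₁ j₀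
    omega) le_rfl
  have h1 := eval_Gp w P x (Us a j₀) (fun p => y p.1 p.2)
  rw [hfin, map_zero] at h1
  rw [h1]
  congr 2
  funext i
  rcases i with i | p
  · rfl
  · simp only [Sum.elim_inr]
    by_cases h2 : p.1 ∈ Us a j₀
    · rw [if_pos h2]
      obtain ⟨i, hi, h3⟩ := mem_Us.1 h2
      rw [hy i hi p.1 h3]
    · rw [if_neg h2]

end Pool.Agent.Run7.h643.IS
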