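import Mathlib
import Pool.Agent.Run7.h643.IS.Main
import Pool.Agent.Run7.h643.MW.Mix
import Pool.Agent.Run7.h643.MW.RunsM

/-!
# Infinite sets of algebraic numbers and primes with independent logarithms
-/

set_option autoImplicit false

namespace Pool.Agent.Run7.h643.IS

open MvPolynomial Module Pool.Agent.R351.GD Pool.Agent.Y916.Al

variable {E : Type}

/-- the logarithms of `val n` -/
def AdmL (val : E → ℂ) (n : E) (z : Unit → ℂ) : Prop := Complex.exp (z ()) = val n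

/-- the windows: centre and size -/
def BigL (m A C δ : ℕ) (o : ℂ × ℕ) : Prop := Ht m A o.1 ∧ ((o.2 : ℝ) + 2) ^ ((δ + 2) ^ C) ≤ ‖o.1‖

/-- the numbers in a window -/
def InL (val : E → ℂ) (d : ℕ) (o : ℂ × ℕ) (n : E) : Prop :=
  val n - o.1 ≠ 0 ∧ Pool.Agent.Y916.Ari.Adm d o.2 (val n - o.1)

theorem bigL_mono (m A C C' δ : ℕ) (o : ℂ × ℕ) (h : C ≤ C') (hB : BigL m A C' δ o) : BigL m A C δ o := by
  refine ⟨hB.1, le_trans (pow_le_pow_right₀ ?_ (Nat.pow_le_pow_right (by omega) h)) hB.2⟩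
  linarith [(Nat.cast_nonneg o.2 : (0 : ℝ) ≤ o.2)]

theorem brL (val : E → ℂ) (n : E) (z : Unit → ℂ) (h : AdmL val n z) (k : Unit) :
    ∃ b : Fin 1 → ℤ, z k = Complex.log (val n) + ∑ j : Fin 1, (b j : ℂ) * (2 * Real.pi * Complex.I) := by
  have h0 : val n ≠ 0 := by
    rw [← show Complex.exp (z ()) = val n from h]
    exact Complex.exp_ne_zero _
  have h1 : Complex.exp (z ()) = Complex.exp (Complex.log (val n)) := by
    rw [Complex.exp_log h0]
    exact h
  obtain ⟨b, hb⟩ := Complex.exp_eq_exp_iff_exists_int.1 h1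
  refine ⟨fun _ => b, ?_⟩
  rw [Fin.sum_univ_one]
  exact hb

theorem winL (val : E → ℂ) (hval : Function.Injective val) (d m A q r : ℕ) :
    ∃ C, Win1 (AdmL val) (BigL m A) (InL val d) q r (q + 2) C := by
  classical
  obtain ⟨C, hC⟩ := MW.windows 1 q r d m A
  refine ⟨C, fun δ o ho c => ?_⟩
  obtain ⟨S, hS1, hS2, hS3⟩ := hC δ (fun _ _ => o.1) (fun _ _ => o.2) (fun _ _ _ _ => ⟨rfl, rfl⟩) c
  set S₀ : Finset ℂ := S 0 (fun _ _ => 0) with hS₀
  have hSall : ∀ (j : Fin 1) (β : Fin 1 → Fin r → ℂ), S j β = S₀ := by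
    intro j β
    rw [Subsingleton.elim j 0]
    exact hS2 0 β _ fun i hi => absurd hi (by omega)
  have hinj : Function.Injective fun n : E => val n - o.1 := fun n n' h => hval (sub_left_injective h)
  refine ⟨S₀.preimage (fun n : E => val n - o.1) hinj.injOn, ?_, fun B hB hBS x hx K hK hKd Q hQ hQ0 y => ?_⟩
  · refine le_trans (Finset.card_le_card_of_injOn (fun n : E => val n - o.1) (fun n hn => ?_) hinj.injOn)
      ((hS1 0 (fun _ _ => 0)).trans (by simp))
    have h1 := Finset.mem_coe.1 hn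
    have h2 := (Finset.mem_preimage (f := fun n : E => val n - o.1)).1 h1
    exact Finset.mem_coe.2 h2
  set e : B ≃ Fin r := B.equivFinOfCardEq hB with he
  have hmem : ∀ i, _ := fun i => hBS _ (e.symm i).2
  have hfr := hS3 (fun _ i => val (e.symm i) - o.1) (fun _ => ho.2) (fun _ => ho.1)
    (fun _ i i' hii => e.symm.injective (Subtype.ext (hinj hii)))
    (fun j i => ⟨by
      rw [hSall]
      intro h
      exact (hmem i).2 (Finset.mem_preimage.2 h), (hmem i).1.1, (hmem i).1.2⟩)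
    (fun _ i => x (e.symm i) ()) (fun _ i => by
      have h1 : Complex.exp (x (e.symm i : E) ()) = val (e.symm i) := hx _ (e.symm i).2
      rw [h1]
      ring) K hK hKd (rename (Sum.map id fun p : B × Unit => ((0 : Fin 1), e p.1)) Q)
    ((totalDegree_rename_le _ _).trans hQ) (by
      rw [aeval_rename, ← hQ0]
      congr 2
      funext i
      rcases i with i | i
      · rfl
      · simp)
  have h2 := congrArg (MvPolynomial.eval fun i : Fin 1 × Fin r => y (e.symm i.2, ())) hfr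
  rw [Pool.Agent.Run7.h643.MX.eval_aeval, map_zero, aeval_rename] at h2
  rw [← h2]
  congr 2
  funext i
  rcases i with i | i
  · simp
  · simp

/-- a run of consecutive primes avoiding a finite set -/
theorem run_set (m e : ℕ) : ∃ (L : ℕ) (M : Set ℕ), M.Infinite ∧ ∀ N ∈ M, ∀ S : Finset ℕ, S.card ≤ e →
    ∃ k : ℕ, ∀ i < m, N < Nat.nth Nat.Prime (k + i) ∧ Nat.nth Nat.Prime (k + i) ≤ N + L ∧
      Nat.nth Nat.Prime (k + i) ∉ S := by
  classical
  rcases Nat.eq_zero_or_pos m with hm | hm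
  · subst hm
    exact ⟨0, Set.univ, Set.infinite_univ, fun _ _ _ _ => ⟨0, fun i hi => absurd hi (Nat.not_lt_zero i)⟩⟩
  · obtain ⟨L, hL⟩ := MW.prime_clusters (m * (e + 1))
    refine ⟨L, _, hL, fun N hN S hS => ?_⟩
    obtain ⟨k, hk⟩ := MW.run_avoid m e L N hm hN (S.image fun n => n - N) (Finset.card_image_le.trans hS)
    refine ⟨k, fun i hi => ⟨(hk i hi).1, (hk i hi).2.1, fun h => (hk i hi).2.2 ?_⟩⟩
    exact Finset.mem_image.2 ⟨_, h, rfl⟩

/-- **Logarithms.** -/
theorem inf_logs (val : E → ℂ) (hval : Function.Injective val) (d m A q : ℕ) (r : ℕ → ℕ) :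
    ∃ C : ℕ → ℕ, ∀ (ξ : ℕ → ℂ) (H δ : ℕ → ℕ) (W : ℕ → Finset E → Prop),
      (∀ J, Ht m A (ξ J) ∧ ((H J : ℝ) + 2) ^ ((δ J + 2) ^ C J) ≤ ‖ξ J‖) →
      (∀ J (S : Finset E), S.card ≤ q + 3 + ∑ i ∈ Finset.range J, r i →
        ∃ A, W J A ∧ A.card = r J ∧ ∀ n ∈ A, InL val d (ξ J, H J) n ∧ n ∉ S) →
      ∀ w : Fin q → ℂ, ∃ a : ℕ → Finset E, (∀ J, W J (a J) ∧ (a J).card = r J) ∧
        ∀ x : E → ℂ, (∀ J, ∀ n ∈ a J, Complex.exp (x n) = val n) → ∀ j₀ D : ℕ, (∀ J, j₀ ≤ J → D ≤ δ J) →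
        ∀ K : IntermediateField ℚ ℂ, FiniteDimensional ℚ K → finrank ℚ K ≤ D →
        ∀ P : MvPolynomial (Fin q ⊕ E) K, P.totalDegree ≤ D →
          (∀ n, Sum.inr n ∈ P.vars → ∃ J, n ∈ a J) → aeval (Sum.elim w x) P = 0 →
          ∀ y : E → ℂ, (∀ J < j₀, ∀ n ∈ a J, y n = x n) → aeval (Sum.elim w y) P = 0 := by
  classical
  obtain ⟨C, hC⟩ := inf (Adm := AdmL val) (Big := BigL m A) (In := InL val d) (e₀ := 2)
    (fun C C' δ o h hB => bigL_mono m A C C' δ o h hB) (fun _ : Fin 1 => 2 * Real.pi * Complex.I)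
    (fun n _ => Complex.log (val n)) (fun n z h k => brL val n z h k) (winL val hval d m A) q r
  refine ⟨C, fun ξ H δ W hN hW w => ?_⟩
  obtain ⟨a, ha1, ha2⟩ := hC (fun J => (ξ J, H J)) δ W hN (fun J S hS => hW J S (by
    rw [Fintype.card_unit, mul_one] at hS
    omega)) w
  refine ⟨a, fun J => ⟨(ha1 J).1, (ha1 J).2.1⟩, fun x hx j₀ D hD K hK hKD P hP hPv hP0 y hy => ?_⟩
  have h1 := ha2 (fun n _ => x n) (fun J n hn => hx J n hn) j₀ D hD K hK hKD
    (rename (Sum.map id fun n : E => (n, ())) P) ((totalDegree_rename_le _ _).trans hP) (fun p hp => by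
      have h2 := vars_rename (Sum.map id fun n : E => (n, ())) P hp
      obtain ⟨i, hi, h3⟩ := Finset.mem_image.1 h2
      rcases i with i | n
      · exact absurd h3 Sum.inl_ne_inr
      · obtain ⟨J, hJ⟩ := hPv n hi
        refine ⟨J, ?_⟩
        have h4 : (n, ()) = p := Sum.inr.inj h3
        rw [← h4]
        exact hJ) (by
      rw [aeval_rename, ← hP0]
      congr 2
      funext i
      rcases i with i | i <;> rfl) (fun n _ => y n) (fun J hJ n hn => by
        funext _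
        exact hy J hJ n hn)
  rw [aeval_rename] at h1
  rw [← h1]
  congr 2
  funext i
  rcases i with i | i <;> rfl

end Pool.Agent.Run7.h643.IS
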