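import Mathlib
import Pool.Agent.Run7.h643.IS.Unif
import Pool.Agent.Run7.h643.IS.Logs
import Pool.Agent.Run7.h643.JW.All

/-!
# Infinite sets of primes: values of the derivatives of the modular invariant
-/

set_option autoImplicit false

namespace Pool.Agent.Run7.h643.IS

open MvPolynomial Module
open Pool.Agent.R351.GD
open Pool.Agent.Y120.J (si jt)
open Pool.Agent.Y120.K (wo)
open Pool.Agent.TH21.MS (jj)

/-- the values at the points with `j (z) = n` -/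
def AdmJ (n : ℕ) (x : Fin 3 → ℂ) : Prop := ∃ z : UpperHalfPlane, jj z = (n : ℂ) ∧ x = jt z

/-- size and place of the windows -/
def BigJ (C δ : ℕ) (o : ℕ × ℕ) : Prop := (o.1 + 2) ^ ((δ + 2) ^ C) ≤ o.2

/-- the numbers in a window -/
def InJ (o : ℕ × ℕ) (n : ℕ) : Prop := o.2 < n ∧ n ≤ o.2 + o.1

theorem bigJ_mono (C C' δ : ℕ) (o : ℕ × ℕ) (h : C ≤ C') (hB : BigJ C' δ o) : BigJ C δ o :=
  (Nat.pow_le_pow_right (by omega) (Nat.pow_le_pow_right (by omega) h)).trans hB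

theorem winJ (q r : ℕ) : ∃ C, Win1 AdmJ BigJ InJ q r (q + 2) C := by
  classical
  obtain ⟨E, ⟨C, hC⟩, hE⟩ := Pool.Agent.Run7.h643.JW.jwinM q (t := 1) (fun _ => r)
  refine ⟨C, fun δ o ho c => ?_⟩
  obtain ⟨S, hS1, hS2, hS3⟩ := hE δ c (fun _ _ => o.2) (fun _ _ => o.1) (fun _ _ => true) (fun _ _ _ _ => ⟨rfl, rfl, rfl⟩)
  set S₀ : Finset ℕ := S 0 (fun _ _ => 0) with hS₀
  have hSall : ∀ (j : Fin 1) (g : JW.Ch fun _ : Fin 1 => r), S j g = S₀ := by
    intro j g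
    rw [Subsingleton.elim j 0]
    exact hS2 0 g _ fun i hi => absurd hi (by omega)
  refine ⟨S₀.image fun u => o.2 + u, ?_, fun A hA hAS x hx K hK hKd Q hQ hQ0 y => ?_⟩
  · refine Finset.card_image_le.trans ((hS1 0 (fun _ _ => 0)).trans ?_)
    have h1 : Finset.Iio (0 : Fin 1) = ∅ := by
      ext i
      simp
    rw [h1, Finset.sum_empty, add_zero]
  set e : A ≃ Fin r := A.equivFinOfCardEq hA with he
  have hmem : ∀ i, (o.2 < (e.symm i : ℕ) ∧ (e.symm i : ℕ) ≤ o.2 + o.1) ∧ (e.symm i : ℕ) ∉ S₀.image fun u => o.2 + u :=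
    fun i => hAS _ (e.symm i).2
  choose z hz1 hz2 using fun i : Fin r => hx (e.symm i) (e.symm i).2
  have h6 := hS3 (fun _ i => (e.symm i : ℕ) - o.2) (fun _ => (Nat.pow_le_pow_right (by omega) (hC δ)).trans ho)
    (fun _ i i' hii => by
      have h1 := (hmem i).1
      have h2 := (hmem i').1
      have h3 : (e.symm i : ℕ) - o.2 = (e.symm i' : ℕ) - o.2 := hii
      exact e.symm.injective (Subtype.ext (by omega)))
    (fun j i => ⟨by have := (hmem i).1; omega, fun h1 => by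
      rw [hSall] at h1
      exact (hmem i).2 (Finset.mem_image.2 ⟨_, h1, by have := (hmem i).1; omega⟩)⟩)
    (fun _ i => z i) (fun _ i => by
      have h1 : si true = 1 := by simp [si]
      have h2 : o.2 + ((e.symm i : ℕ) - o.2) = (e.symm i : ℕ) := by
        have := (hmem i).1
        omega
      rw [h1, Int.cast_one, one_mul, h2]
      exact hz1 i) K hK hKd
    (rename (Sum.map some fun p : A × Fin 3 => (⟨0, (e p.1, p.2)⟩ : Σ _ : Fin 1, Fin r × Fin 3)) Q)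
    ((totalDegree_rename_le _ _).trans hQ) (by
      rw [aeval_rename, ← hQ0]
      congr 2
      funext i
      rcases i with i | ⟨n, k⟩
      · rfl
      · show jt (z (e n)) k = x n k
        have h3 := hz2 (e n)
        rw [e.symm_apply_apply] at h3
        rw [h3])
    (fun v => y (e.symm v.2.1, v.2.2))
  rw [aeval_rename] at h6
  rw [← h6]
  congr 2
  funext i
  rcases i with i | ⟨n, k⟩
  · rfl
  · show y (n, k) = y (e.symm (e n), k)
    rw [e.symm_apply_apply]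

/-- **Runs of consecutive primes.** -/
theorem inf_mod (q : ℕ) (r : ℕ → ℕ) : ∃ (C L : ℕ → ℕ) (M : ℕ → Set ℕ), (∀ J, (M J).Infinite) ∧ ∀ N δ : ℕ → ℕ,
    (∀ J, N J ∈ M J ∧ (L J + 2) ^ ((δ J + 2) ^ C J) ≤ N J) → ∀ (w : Fin q → ℂ) (z : ℕ → UpperHalfPlane),
    (∀ p : ℕ, p.Prime → jj (z p) = (p : ℂ)) → ∃ k : ℕ → ℕ,
      (∀ J, ∀ i < r J, N J < Nat.nth Nat.Prime (k J + i) ∧ Nat.nth Nat.Prime (k J + i) ≤ N J + L J) ∧
      ∀ j₀ D : ℕ, (∀ J, j₀ ≤ J → D ≤ δ J) →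
        ∀ K : IntermediateField ℚ ℂ, FiniteDimensional ℚ K → finrank ℚ K ≤ D →
        ∀ P : MvPolynomial (Fin q ⊕ (ℕ × Fin 3)) K, P.totalDegree ≤ D →
          (∀ p : ℕ × Fin 3, Sum.inr p ∈ P.vars → ∃ J, ∃ i < r J, p.1 = Nat.nth Nat.Prime (k J + i)) →
          aeval (Sum.elim w fun p : ℕ × Fin 3 => jt (z p.1) p.2) P = 0 →
          ∀ y : ℕ → Fin 3 → ℂ, (∀ J < j₀, ∀ i < r J, y (Nat.nth Nat.Prime (k J + i)) =
            jt (z (Nat.nth Nat.Prime (k J + i)))) → aeval (Sum.elim w fun p : ℕ × Fin 3 => y p.1 p.2) P = 0 := by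
  classical
  obtain ⟨C, hC⟩ := inf2 (Adm := AdmJ) (Big := BigJ) (In := InJ) (e₀ := 2)
    (fun C C' δ o h hB => bigJ_mono C C' δ o h hB) winJ 0 q r
  choose L M hM hLM using fun J : ℕ => run_set (r J) (q + 0 + (∑ i ∈ Finset.range J, r i) * Fintype.card (Fin 3) + 2)
  refine ⟨C, L, M, hM, fun N δ hN w z hz => ?_⟩
  obtain ⟨a, ha1, ha2⟩ := hC Fin.elim0 (fun n => jt (z n)) (fun J => (L J, N J)) δ
    (fun J A => ∃ k, A = (Finset.range (r J)).image fun i => Nat.nth Nat.Prime (k + i)) (fun J => (hN J).2) (fun J S hS => by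
    obtain ⟨k, hk⟩ := hLM J (N J) (hN J).1 S hS
    refine ⟨_, ⟨k, rfl⟩, ?_, fun n hn => ?_⟩
    · rw [Finset.card_image_of_injective, Finset.card_range]
      intro i i' hii
      have h1 := Nat.nth_injective Nat.infinite_setOfPred_prime hii
      omega
    · obtain ⟨i, hi, rfl⟩ := Finset.mem_image.1 hn
      have h1 := hk i (Finset.mem_range.1 hi)
      exact ⟨⟨h1.1, h1.2.1⟩, h1.2.2⟩) w
  choose k hk using fun J => (ha1 J).1
  have hmem : ∀ J n, n ∈ a J ↔ ∃ i < r J, n = Nat.nth Nat.Prime (k J + i) := by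
    intro J n
    rw [hk J, Finset.mem_image]
    constructor
    · rintro ⟨i, hi, rfl⟩
      exact ⟨i, Finset.mem_range.1 hi, rfl⟩
    · rintro ⟨i, hi, rfl⟩
      exact ⟨i, Finset.mem_range.2 hi, rfl⟩
  refine ⟨k, fun J i hi => (ha1 J).2.2 _ ((hmem J _).2 ⟨i, hi, rfl⟩), fun j₀ D hD K hK hKD P hP hPv hP0 y hy => ?_⟩
  refine ha2 (fun n => jt (z n)) (fun J n hn => ?_) (fun J n hn k => ⟨Fin.elim0, by simp⟩) j₀ D hD K hK hKD P hP
    (fun p hp => ?_) hP0 y (fun J hJ n hn => ?_)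
  · obtain ⟨i, hi, rfl⟩ := (hmem J n).1 hn
    exact ⟨z _, hz _ (Nat.prime_nth_prime _), rfl⟩
  · obtain ⟨J, i, hi, h1⟩ := hPv p hp
    exact ⟨J, (hmem J _).2 ⟨i, hi, h1⟩⟩
  · obtain ⟨i, hi, rfl⟩ := (hmem J n).1 hn
    exact hy J hJ i hi

end Pool.Agent.Run7.h643.IS
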