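import Mathlib
import Pool.Agent.Run7.h643.IS.Mod
import Pool.Agent.Y120.K.WinI

/-!
# Infinite sets of primes: points isogenous to the points over the primes
-/

set_option autoImplicit false

namespace Pool.Agent.Run7.h643.IS

open MvPolynomial Module
open Pool.Agent.Y120.K (clr clr_eval clr_deg mo1 mo2 mo3)
open Pool.Agent.Y120.J (jt)
open Pool.Agent.TH21.MS (jj)

theorem den_ne {a b c d : ℚ} (hdet : a * d - b * c ≠ 0) (z : UpperHalfPlane) : (c : ℂ) * z + d ≠ 0 := by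
  intro h0
  have h1 := congrArg Complex.im h0
  simp only [Complex.add_im, Complex.mul_im, Complex.ratCast_re, Complex.ratCast_im, zero_mul, add_zero,
    Complex.zero_im] at h1
  have hc : (c : ℝ) = 0 := (mul_eq_zero.1 h1).resolve_right z.im_pos.ne'
  have hc' : c = 0 := by exact_mod_cast hc
  rw [hc'] at h0 hdet
  have hd : (d : ℂ) = 0 := by simpa using h0
  have hd' : d = 0 := by exact_mod_cast hd
  apply hdet
  rw [hd']
  ring

section
variable {q : ℕ} (w : Fin q → ℂ) (z : ℕ → UpperHalfPlane) (ga gb gc gd : ℕ → ℚ) (U A : Finset ℕ)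

/-- the natural number of a variable -/
def nm : (U × Unit) ⊕ (A × Unit) → ℕ := Sum.elim (fun p => (p.1 : ℕ)) fun p => (p.1 : ℕ)

/-- linear polynomials -/
noncomputable def lnr (K : IntermediateField ℚ ℂ) (q : ℕ) (ga gb : ℕ → ℚ) (U A : Finset ℕ)
    (b : (U × Unit) ⊕ (A × Unit)) : MvPolynomial (Fin q ⊕ ((U × Unit) ⊕ (A × Unit))) K :=
  C (algebraMap ℚ K (ga (nm U A b))) * X (Sum.inr b) + C (algebraMap ℚ K (gb (nm U A b)))

theorem lnr_deg (K : IntermediateField ℚ ℂ) (b : (U × Unit) ⊕ (A × Unit)) :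
    (lnr K q ga gb U A b).totalDegree ≤ 1 := by
  unfold lnr
  refine (totalDegree_add _ _).trans (max_le ((totalDegree_mul _ _).trans ?_) ?_)
  · rw [totalDegree_C, zero_add]
    exact (totalDegree_X _).le
  · rw [totalDegree_C]
    exact Nat.zero_le _

theorem lnr_eval (K : IntermediateField ℚ ℂ) (Y : (U × Unit) ⊕ (A × Unit) → ℂ) (b : (U × Unit) ⊕ (A × Unit)) :
    aeval (Sum.elim w Y) (lnr K q ga gb U A b) = (ga (nm U A b) : ℂ) * Y b + gb (nm U A b) := by
  have hq : ∀ r : ℚ, algebraMap K ℂ (algebraMap ℚ K r) = (r : ℂ) := fun r => by simp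
  unfold lnr
  rw [map_add, map_mul, aeval_C, aeval_C, aeval_X, hq, hq, Sum.elim_inr]

/-- the renaming of the variables -/
def rn (q : ℕ) (U A : Finset ℕ) : (Fin q ⊕ (Fin 0 ⊕ (U × Unit))) ⊕ (A × Unit) → Fin q ⊕ ((U × Unit) ⊕ (A × Unit)) :=
  Sum.elim (Sum.elim Sum.inl (Sum.elim Fin.elim0 fun p => Sum.inr (Sum.inl p))) fun p => Sum.inr (Sum.inr p)

/-- the step for isogenous points -/
theorem iso_step (hdet : ∀ n, ga n * gd n - gb n * gc n ≠ 0) (hUA : Disjoint U A) {K : IntermediateField ℚ ℂ}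
    {D D' : ℕ} (hD' : q * (D * 1) + (U.card + A.card) * (D * 1) ≤ D')
    (hF : ∀ P : MvPolynomial (Fin q ⊕ (ℕ × Fin 3)) K, P.totalDegree ≤ D' →
      (∀ v, Sum.inr v ∈ P.vars → v.1 ∈ U ∪ A) → aeval (Sum.elim w fun p : ℕ × Fin 3 => jt (z p.1) p.2) P = 0 →
      ∀ y : ℕ → Fin 3 → ℂ, (∀ n ∈ U, y n = jt (z n)) → aeval (Sum.elim w fun p : ℕ × Fin 3 => y p.1 p.2) P = 0)
    (x : ℕ → ℂ) (hx : ∀ n, x n = ((ga n : ℂ) * z n + gb n) / ((gc n : ℂ) * z n + gd n))
    (Q : MvPolynomial ((Fin q ⊕ (Fin 0 ⊕ (U × Unit))) ⊕ (A × Unit)) K) (hQ : Q.totalDegree ≤ D)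
    (hQ0 : aeval (Sum.elim (cst w (Fin.elim0 : Fin 0 → ℂ) (fun n (_ : Unit) => x n) U)
      fun p : A × Unit => x p.1) Q = 0)
    (y : A × Unit → ℂ) : aeval (Sum.elim (cst w (Fin.elim0 : Fin 0 → ℂ) (fun n (_ : Unit) => x n) U) y) Q = 0 := by
  classical
  set Q' : MvPolynomial (Fin q ⊕ ((U × Unit) ⊕ (A × Unit))) K := rename (rn q U A) Q with hQ'
  have hQ'd : Q'.totalDegree ≤ D := (totalDegree_rename_le _ _).trans hQ
  have hQ'e : ∀ Y : (U × Unit) ⊕ (A × Unit) → ℂ, (∀ p, Y (Sum.inl p) = x p.1) →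
      aeval (Sum.elim w Y) Q' = aeval (Sum.elim (cst w (Fin.elim0 : Fin 0 → ℂ) (fun n (_ : Unit) => x n) U)
        fun p => Y (Sum.inr p)) Q := by
    intro Y hY
    rw [hQ', aeval_rename]
    congr 2
    funext i
    rcases i with (a | (j | p)) | p
    · simp [rn, cst]
    · exact j.elim0
    · simp [rn, cst, hY]
    · simp [rn]
  set P₀ := clr D (fun a : Fin q => (X (Sum.inl a) : MvPolynomial (Fin q ⊕ ((U × Unit) ⊕ (A × Unit))) K))
    (lnr K q ga gb U A) (lnr K q gc gd U A) Q' with hP₀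
  set P : MvPolynomial (Fin q ⊕ (ℕ × Fin 3)) K := rename (Sum.map id fun b => (nm U A b, (0 : Fin 3))) P₀ with hP
  have hPd : P.totalDegree ≤ D' := by
    refine (totalDegree_rename_le _ _).trans ((clr_deg hQ'd (e := 1) (fun a => (totalDegree_X _).le)
      (fun b => lnr_deg _ _ _ _ _ _) fun b => lnr_deg _ _ _ _ _ _).trans (le_trans (le_of_eq ?_) hD'))
    rw [Fintype.card_fin, Fintype.card_sum, Fintype.card_prod, Fintype.card_prod, Fintype.card_coe, Fintype.card_coe,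
      Fintype.card_unit]
    simp only [mul_one]
  have hPv : ∀ v, Sum.inr v ∈ P.vars → v.1 ∈ U ∪ A := by
    intro v hv
    obtain ⟨i, hi, h3⟩ := Finset.mem_image.1 (vars_rename _ P₀ hv)
    rcases i with a | b
    · exact absurd h3 Sum.inl_ne_inr
    · have h4 : (nm U A b, (0 : Fin 3)) = v := Sum.inr.inj h3
      rw [← h4]
      rcases b with p | p
      · exact Finset.mem_union_left _ p.1.2
      · exact Finset.mem_union_right _ p.1.2
  have hPe : ∀ Y : ℕ → Fin 3 → ℂ, (∀ b, (gc (nm U A b) : ℂ) * Y (nm U A b) 0 + gd (nm U A b) ≠ 0) →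
      aeval (Sum.elim w fun p : ℕ × Fin 3 => Y p.1 p.2) P =
        (∏ b, ((gc (nm U A b) : ℂ) * Y (nm U A b) 0 + gd (nm U A b)) ^ D) *
        aeval (Sum.elim w fun b => ((ga (nm U A b) : ℂ) * Y (nm U A b) 0 + gb (nm U A b)) /
          ((gc (nm U A b) : ℂ) * Y (nm U A b) 0 + gd (nm U A b))) Q' := by
    intro Y hY
    have h1 : (Sum.elim w fun p : ℕ × Fin 3 => Y p.1 p.2) ∘ (Sum.map id fun b => (nm U A b, (0 : Fin 3))) =
        Sum.elim w fun b => Y (nm U A b) 0 := by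
      funext i
      rcases i with i | i <;> rfl
    rw [hP, aeval_rename, h1, hP₀, clr_eval hQ'd _ fun b => by
      rw [lnr_eval]
      exact hY b]
    congr 1
    · exact Finset.prod_congr rfl fun b _ => by rw [lnr_eval]
    · congr 2
      funext i
      rcases i with i | i
      · simp only [Sum.elim_inl, aeval_X]
      · simp only [Sum.elim_inr]
        rw [lnr_eval, lnr_eval]
  have hzero := hF P hPd hPv (by
    rw [hPe (fun n => jt (z n)) fun b => den_ne (hdet _) _]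
    refine mul_eq_zero_of_right _ ?_
    have h1 : (fun b : (U × Unit) ⊕ (A × Unit) => ((ga (nm U A b) : ℂ) * jt (z (nm U A b)) 0 + gb (nm U A b)) /
          ((gc (nm U A b) : ℂ) * jt (z (nm U A b)) 0 + gd (nm U A b))) = fun b => x (nm U A b) := by
      funext b
      rw [hx]
      rfl
    rw [h1, hQ'e _ fun p => rfl]
    exact hQ0)
  have hdetC : ∀ n, (ga n : ℂ) * gd n - gb n * gc n ≠ 0 := fun n => by exact_mod_cast hdet n
  -- generic values
  have hkey : ∀ u : A × Unit → ℂ, (∀ p : A × Unit, (ga p.1 : ℂ) - gc p.1 * u p ≠ 0) →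
      aeval (Sum.elim (cst w (Fin.elim0 : Fin 0 → ℂ) (fun n (_ : Unit) => x n) U) u) Q = 0 := by
    intro u hu
    set Y : ℕ → Fin 3 → ℂ := fun n => if hA : n ∈ A then
      fun _ => ((gd n : ℂ) * u (⟨n, hA⟩, ()) - gb n) / ((ga n : ℂ) - gc n * u (⟨n, hA⟩, ())) else jt (z n) with hYd
    have hYA : ∀ p : A × Unit, Y p.1 0 = ((gd p.1 : ℂ) * u p - gb p.1) / ((ga p.1 : ℂ) - gc p.1 * u p) := by
      rintro ⟨⟨n, hn⟩, ⟨⟩⟩
      rw [hYd]
      simp only [dif_pos hn]
    have hYU : ∀ n ∈ U, Y n = jt (z n) := by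
      intro n hn
      have h1 : n ∉ A := Finset.disjoint_left.1 hUA hn
      rw [hYd]
      simp only [dif_neg h1]
    have hYne : ∀ b, (gc (nm U A b) : ℂ) * Y (nm U A b) 0 + gd (nm U A b) ≠ 0 := by
      rintro (p | p)
      · show (gc p.1 : ℂ) * Y p.1 0 + gd p.1 ≠ 0
        rw [hYU _ p.1.2]
        exact den_ne (hdet _) _
      · show (gc p.1 : ℂ) * Y p.1 0 + gd p.1 ≠ 0
        rw [hYA, mo1 (hu p)]
        exact div_ne_zero (hdetC _) (hu p)
    have h1 := hzero Y hYU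
    rw [hPe Y hYne] at h1
    have h2 := (mul_eq_zero.1 h1).resolve_left (Finset.prod_ne_zero_iff.2 fun b _ => pow_ne_zero _ (hYne b))
    rw [hQ'e] at h2
    · rw [← h2]
      congr 2
      funext i
      rcases i with i | p
      · rfl
      · simp only [Sum.elim_inr]
        show u p = ((ga p.1 : ℂ) * Y p.1 0 + gb p.1) / ((gc p.1 : ℂ) * Y p.1 0 + gd p.1)
        rw [hYA, mo1 (hu p), mo2 (hu p)]
        exact (mo3 (hu p) (hdetC _)).symm
    · intro p
      show ((ga p.1 : ℂ) * Y p.1 0 + gb p.1) / ((gc p.1 : ℂ) * Y p.1 0 + gd p.1) = x p.1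
      rw [hYU _ p.1.2, hx]
      rfl
  -- all values
  set R : MvPolynomial (A × Unit) ℂ := aeval (Sum.elim (fun c =>
    C (cst w (Fin.elim0 : Fin 0 → ℂ) (fun n (_ : Unit) => x n) U c)) X) Q with hR
  have hRe : ∀ u : A × Unit → ℂ, eval u R =
      aeval (Sum.elim (cst w (Fin.elim0 : Fin 0 → ℂ) (fun n (_ : Unit) => x n) U) u) Q := fun u =>
    Pool.Agent.Run7.h643.MX.eval_aeval _ _ _
  have hR0 : R = 0 := by
    refine MvPolynomial.funext_set (s := fun p : A × Unit => {v : ℂ | (ga p.1 : ℂ) - gc p.1 * v ≠ 0}) ?_ ?_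
    · intro p
      have h1 : {v : ℂ | (ga p.1 : ℂ) - gc p.1 * v = 0}.Finite := by
        refine Set.Subsingleton.finite ?_
        intro v hv v' hv'
        have h2 : (ga p.1 : ℂ) - gc p.1 * v = 0 := hv
        have h3 : (ga p.1 : ℂ) - gc p.1 * v' = 0 := hv'
        have h4 : (gc p.1 : ℂ) ≠ 0 := by
          intro h5
          rw [h5, zero_mul, sub_zero] at h2
          apply hdetC p.1
          rw [h2, h5]
          ring
        have h5 : (gc p.1 : ℂ) * (v - v') = 0 := by linear_combination h3 - h2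
        exact sub_eq_zero.1 ((mul_eq_zero.1 h5).resolve_left h4)
      exact h1.infinite_compl
    · intro u hu
      rw [hRe, map_zero]
      exact hkey u fun p => hu p (Set.mem_univ p)
  rw [← hRe, hR0, map_zero]

end

end Pool.Agent.Run7.h643.IS
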