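import Mathlib
import Pool.Agent.Run7.h643.IS.Mod
import Pool.Agent.Y988.J.FD

/-!
# Infinite sets of primes: the choice of the points over the small primes does not matter; points with the same large
# real invariant
-/

set_option autoImplicit false

namespace Pool.Agent.Run7.h643.IS

open MvPolynomial Module
open Pool.Agent.R351.GD
open Pool.Agent.Y120.J (si jt)
open Pool.Agent.Y120.K (wo)
open Pool.Agent.TH21.MS (jj)

/-- **Runs of consecutive primes.** -/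
theorem inf_mod' (T₀ q : ℕ) (r : ℕ → ℕ) : ∃ (C L : ℕ → ℕ) (M : ℕ → Set ℕ), (∀ J, (M J).Infinite) ∧ ∀ N δ : ℕ → ℕ,
    (∀ J, N J ∈ M J ∧ (L J + 2) ^ ((δ J + 2) ^ C J) ≤ N J) → ∀ (w : Fin q → ℂ) (z : ℕ → UpperHalfPlane),
    (∀ p : ℕ, p.Prime → T₀ < p → jj (z p) = (p : ℂ)) → ∃ k : ℕ → ℕ,
      (∀ J, ∀ i < r J, N J < Nat.nth Nat.Prime (k J + i) ∧ Nat.nth Nat.Prime (k J + i) ≤ N J + L J) ∧
      ∀ j₀ D : ℕ, (∀ J, j₀ ≤ J → D ≤ δ J) →
        ∀ K : IntermediateField ℚ ℂ, FiniteDimensional ℚ K → finrank ℚ K ≤ D →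
        ∀ P : MvPolynomial (Fin q ⊕ (ℕ × Fin 3)) K, P.totalDegree ≤ D →
          (∀ p : ℕ × Fin 3, Sum.inr p ∈ P.vars → ∃ J, ∃ i < r J, p.1 = Nat.nth Nat.Prime (k J + i)) →
          aeval (Sum.elim w fun p : ℕ × Fin 3 => jt (z p.1) p.2) P = 0 →
          ∀ y : ℕ → Fin 3 → ℂ, (∀ J < j₀, ∀ i < r J, y (Nat.nth Nat.Prime (k J + i)) =
            jt (z (Nat.nth Nat.Prime (k J + i)))) → aeval (Sum.elim w fun p : ℕ × Fin 3 => y p.1 p.2) P = 0 := by
  classical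
  obtain ⟨C, hC⟩ := inf2 (Adm := AdmJ) (Big := BigJ) (In := InJ) (e₀ := 2)
    (fun C C' δ o h hB => bigJ_mono C C' δ o h hB) winJ 0 q r
  choose L M hM hLM using fun J : ℕ => run_set (r J) (q + 0 + (∑ i ∈ Finset.range J, r i) * Fintype.card (Fin 3) + 2)
  refine ⟨C, L, fun J => M J \ ((Finset.range T₀ : Finset ℕ) : Set ℕ), fun J => (hM J).sdiff (Finset.finite_toSet _),
    fun N δ hN' w z hz => ?_⟩
  have hN : ∀ J, N J ∈ M J ∧ (L J + 2) ^ ((δ J + 2) ^ C J) ≤ N J := fun J => ⟨(hN' J).1.1, (hN' J).2⟩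
  have hNT : ∀ J, T₀ ≤ N J := by
    intro J
    have h2 := (hN' J).1.2
    rw [Finset.mem_coe, Finset.mem_range] at h2
    omega
  obtain ⟨a, ha1, ha2⟩ := hC Fin.elim0 (fun n => jt (z n)) (fun J => (L J, N J)) δ
    (fun J A => ∃ k, A = (Finset.range (r J)).image fun i => Nat.nth Nat.Prime (k + i)) (fun J => (hN J).2) (fun J S hS => by
    obtain ⟨k, hk⟩ := hLM J (N J) (hN J).1 S hS
    refine ⟨_, ⟨k, rfl⟩, ?_, fun n hn => ?_⟩
    · rw [Finset.card_image_of_injective, Finset.card_range]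
      intro i i' hii
      have h1 := Nat.nth_injective Nat.infinite_setOfPred_prime hii
      omega
    · obtain ⟨i, hi, rfl⟩ := Finset.mem_image.1 hn
      have h1 := hk i (Finset.mem_range.1 hi)
      exact ⟨⟨h1.1, h1.2.1⟩, h1.2.2⟩) w
  choose k hk using fun J => (ha1 J).1
  have hmem : ∀ J n, n ∈ a J ↔ ∃ i < r J, n = Nat.nth Nat.Prime (k J + i) := by
    intro J n
    rw [hk J, Finset.mem_image]
    constructor
    · rintro ⟨i, hi, rfl⟩
      exact ⟨i, Finset.mem_range.1 hi, rfl⟩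
    · rintro ⟨i, hi, rfl⟩
      exact ⟨i, Finset.mem_range.2 hi, rfl⟩
  refine ⟨k, fun J i hi => (ha1 J).2.2 _ ((hmem J _).2 ⟨i, hi, rfl⟩), fun j₀ D hD K hK hKD P hP hPv hP0 y hy => ?_⟩
  refine ha2 (fun n => jt (z n)) (fun J n hn => ?_) (fun J n hn k => ⟨Fin.elim0, by simp⟩) j₀ D hD K hK hKD P hP
    (fun p hp => ?_) hP0 y (fun J hJ n hn => ?_)
  · obtain ⟨i, hi, rfl⟩ := (hmem J n).1 hn
    have h5 := ((ha1 J).2.2 _ ((hmem J _).2 ⟨i, hi, rfl⟩)).1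
    have h6 := hNT J
    exact ⟨z _, hz _ (Nat.prime_nth_prime _) (lt_of_le_of_lt h6 h5), rfl⟩
  · obtain ⟨J, i, hi, h1⟩ := hPv p hp
    exact ⟨J, (hmem J _).2 ⟨i, hi, h1⟩⟩
  · obtain ⟨i, hi, rfl⟩ := (hmem J n).1 hn
    exact hy J hJ i hi


open Pool.Agent.Y988.J in
/-- points with the same large real invariant are equivalent -/
theorem same : ∃ T : ℝ, ∀ z z' : UpperHalfPlane, ∀ t : ℝ, T ≤ t → jj z = t → jj z' = t →
    ∃ γ : Matrix.SpecialLinearGroup (Fin 2) ℤ, z' = γ • z := by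
  obtain ⟨ε, hε, hinj⟩ := Fq_inj
  set Y₀ : ℝ := -Real.log ε / (2 * Real.pi) + 1 with hY₀
  have hY : ∀ y : ℝ, Y₀ ≤ y → Real.exp (-(2 * Real.pi * y)) < ε := by
    intro y hy
    rw [← Real.lt_log_iff_exp_lt hε]
    have h1 : 2 * Real.pi * Y₀ = -Real.log ε + 2 * Real.pi := by
      rw [hY₀]
      field_simp
    have h2 : 2 * Real.pi * Y₀ ≤ 2 * Real.pi * y := mul_le_mul_of_nonneg_left hy (by positivity)
    have h3 := Real.pi_pos
    linarith
  obtain ⟨T, hT⟩ := t_fd Y₀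
  refine ⟨T, fun z z' t ht hz hz' => ?_⟩
  obtain ⟨γ, y, hy, hyY, hzγ, hg⟩ := hT z t ht hz
  obtain ⟨γ', y', hy', hyY', hzγ', hg'⟩ := hT z' t ht hz'
  have him : ∀ u : ℝ, (Complex.I * (u : ℂ)).im = u := fun u => by simp
  have hyy : y = y' := by
    have h1 : Fq (qq (Complex.I * y)) = Fq (qq (Complex.I * y')) := by
      rw [← inv_jj, ← inv_jj, Pool.Agent.TH21.MS.jj_I, Pool.Agent.TH21.MS.jj_I, hg, hg']
    have h2 := hinj _ _ (by rw [norm_qq, him]; exact hY y hyY) (by rw [norm_qq, him]; exact hY y' hyY') h1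
    have h3 := congrArg norm h2
    rw [norm_qq, norm_qq, him, him] at h3
    have h4 := Real.exp_injective h3
    have h5 := Real.pi_pos
    nlinarith [h4, h5]
  subst hyy
  refine ⟨γ' * γ⁻¹, ?_⟩
  rw [mul_smul, hzγ, inv_smul_smul, hzγ']

open Pool.Agent.TH21.MS in
/-- every large real number is a value of the invariant -/
theorem exists_pt : ∃ T : ℝ, ∀ t : ℝ, T ≤ t → ∃ z : UpperHalfPlane, jj z = (t : ℂ) := by
  refine ⟨g0 1, fun t ht => ?_⟩
  obtain ⟨y₂, h1, h2⟩ := Pool.Agent.Y988.J.g0_large t 1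
  have hcont : ContinuousOn g0 (Set.Icc 1 y₂) := fun y hy =>
    (g0_deriv y (by linarith [hy.1])).continuousAt.continuousWithinAt
  obtain ⟨y, hy, hyt⟩ := intermediate_value_Icc h1 hcont ⟨ht, h2⟩
  have hy0 : 0 < y := by linarith [hy.1]
  refine ⟨⟨Complex.I * y, by simpa using hy0⟩, ?_⟩
  show jj (Complex.I * y) = t
  rw [jj_I, hyt]

end Pool.Agent.Run7.h643.IS
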