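import Mathlib
import Pool.Agent.Run7.h643.IS.Iso
import Pool.Agent.Run7.h643.IS.Mod2

/-!
# Infinite sets of primes: points isogenous to the points over the primes, the main theorem
-/

set_option autoImplicit false

namespace Pool.Agent.Run7.h643.IS

open MvPolynomial Module
open Pool.Agent.Y120.J (jt)
open Pool.Agent.TH21.MS (jj)

theorem pow_deg (δ m C : ℕ) : (m * δ + 2) ^ C ≤ (δ + 2) ^ ((m + 1) * C) := by
  rw [pow_mul]
  refine Nat.pow_le_pow_left ?_ C
  have h1 : m + 1 ≤ (δ + 2) ^ m := by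
    have h2 : m < 2 ^ m := Nat.lt_two_pow_self
    have h3 : 2 ^ m ≤ (δ + 2) ^ m := Nat.pow_le_pow_left (by omega) m
    omega
  calc m * δ + 2 ≤ (m + 1) * (δ + 2) := by nlinarith
    _ ≤ (δ + 2) ^ m * (δ + 2) := Nat.mul_le_mul_right _ h1
    _ = (δ + 2) ^ (m + 1) := by ring

/-- **Runs of consecutive primes, isogenous points.** -/
theorem inf_iso (T₀ q : ℕ) (r : ℕ → ℕ) : ∃ (C L : ℕ → ℕ) (M : ℕ → Set ℕ), (∀ J, (M J).Infinite) ∧ ∀ N δ : ℕ → ℕ,
    (∀ J, N J ∈ M J ∧ (L J + 2) ^ ((δ J + 2) ^ C J) ≤ N J) → ∀ (w : Fin q → ℂ) (z : ℕ → UpperHalfPlane),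
    (∀ p : ℕ, p.Prime → T₀ < p → jj (z p) = (p : ℂ)) → ∃ k : ℕ → ℕ,
      (∀ J, ∀ i < r J, N J < Nat.nth Nat.Prime (k J + i) ∧ Nat.nth Nat.Prime (k J + i) ≤ N J + L J) ∧
      ∀ ga gb gc gd : ℕ → ℚ, (∀ n, ga n * gd n - gb n * gc n ≠ 0) → ∀ x : ℕ → ℂ,
        (∀ n, x n = ((ga n : ℂ) * z n + gb n) / ((gc n : ℂ) * z n + gd n)) →
        ∀ j₀ D : ℕ, (∀ J, j₀ ≤ J → D ≤ δ J) →
        ∀ K : IntermediateField ℚ ℂ, FiniteDimensional ℚ K → finrank ℚ K ≤ D →
        ∀ P : MvPolynomial (Fin q ⊕ ℕ) K, P.totalDegree ≤ D →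
          (∀ p : ℕ, Sum.inr p ∈ P.vars → ∃ J, ∃ i < r J, p = Nat.nth Nat.Prime (k J + i)) →
          aeval (Sum.elim w x) P = 0 →
          ∀ y : ℕ → ℂ, (∀ J < j₀, ∀ i < r J, y (Nat.nth Nat.Prime (k J + i)) = x (Nat.nth Nat.Prime (k J + i))) →
            aeval (Sum.elim w y) P = 0 := by
  classical
  obtain ⟨C, L, M, hM, h⟩ := inf_mod' T₀ q r
  set R : ℕ → ℕ := fun J => ∑ i ∈ Finset.range J, r i with hR
  refine ⟨fun J => (q + R (J + 1) + 1 + 1) * C J, L, M, hM, fun N δ hN w z hz => ?_⟩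
  obtain ⟨k, hk1, hk2⟩ := h N (fun J => (q + R (J + 1) + 1) * δ J) (fun J => ⟨(hN J).1,
    (Nat.pow_le_pow_right (by omega) (pow_deg (δ J) (q + R (J + 1) + 1) (C J))).trans (hN J).2⟩) w z hz
  set a : ℕ → Finset ℕ := fun J => (Finset.range (r J)).image fun i => Nat.nth Nat.Prime (k J + i) with ha
  have hmem : ∀ J n, n ∈ a J ↔ ∃ i < r J, n = Nat.nth Nat.Prime (k J + i) := by
    intro J n
    rw [ha]
    simp only [Finset.mem_image, Finset.mem_range]
    constructor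
    · rintro ⟨i, hi, rfl⟩
      exact ⟨i, hi, rfl⟩
    · rintro ⟨i, hi, rfl⟩
      exact ⟨i, hi, rfl⟩
  have hacard : ∀ J, (a J).card = r J := by
    intro J
    show ((Finset.range (r J)).image fun i => Nat.nth Nat.Prime (k J + i)).card = r J
    rw [Finset.card_image_of_injective, Finset.card_range]
    intro i i' hii
    have h1 := Nat.nth_injective Nat.infinite_setOfPred_prime hii
    omega
  refine ⟨k, hk1, fun ga gb gc gd hdet x hx j₀ D hD K hK hKD P hP hPv hP0 y hy => ?_⟩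
  set P' : MvPolynomial (Fin q ⊕ (ℕ × Unit)) K := rename (Sum.map id fun p => (p, ())) P with hP'
  have hP'd : P'.totalDegree ≤ D := (totalDegree_rename_le _ _).trans hP
  have hP'e : ∀ Y : ℕ → Unit → ℂ, aeval (Sum.elim w fun p : ℕ × Unit => Y p.1 p.2) P' =
      aeval (Sum.elim w fun n => Y n ()) P := by
    intro Y
    rw [hP', aeval_rename]
    congr 2
    funext i
    rcases i with i | i <;> rfl
  set x' : ℕ → Unit → ℂ := fun n _ => x n with hx'
  have hstep : ∀ J, j₀ ≤ J → Gp w P' x' (Us a (J + 1)) = 0 → Gp w P' x' (Us a J) = 0 := by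
    intro J hJ h0
    have h1m : ∀ n, n ∈ Us a (J + 1) ↔ n ∈ Us a J ∨ n ∈ a J := by
      intro n
      rw [mem_Us, mem_Us]
      constructor
      · rintro ⟨i, hi, h⟩
        rcases Nat.lt_succ_iff_lt_or_eq.1 hi with h1 | h1
        · exact Or.inl ⟨i, h1, h⟩
        · exact Or.inr (h1 ▸ h)
      · rintro (⟨i, hi, h⟩ | h)
        · exact ⟨i, by omega, h⟩
        · exact ⟨J, by omega, h⟩
    have h1 : Us a (J + 1) = Us a J ∪ (a J \ Us a J) := by
      ext n
      rw [h1m, Finset.mem_union, Finset.mem_sdiff]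
      tauto
    have h1' : Us a (J + 1) = @Union.union (Finset ℕ) (@Finset.instUnion ℕ fun a b => Classical.propDecidable (a = b))
        (Us a J) (a J \ Us a J) := by
      ext n
      rw [h1m, @Finset.mem_union ℕ (fun a b => Classical.propDecidable (a = b)), Finset.mem_sdiff]
      tauto
    rw [h1'] at h0
    refine step (κ := Unit) w (Fin.elim0 : Fin 0 → ℂ) x' (Us a J) (a J \ Us a J) x'
      (fun n hn k => ⟨Fin.elim0, by simp⟩) (fun Q hQ hQ0 y₁ => ?_) P' hP'd h0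
    refine iso_step w z ga gb gc gd (Us a J) (a J \ Us a J) hdet Finset.disjoint_sdiff
      (D' := (q + R (J + 1) + 1) * D) ?_ ?_ x hx Q hQ hQ0 y₁
    · rw [← Finset.card_union_of_disjoint Finset.disjoint_sdiff, ← h1, mul_one]
      have h2 : (Us a (J + 1)).card ≤ R (J + 1) := Us_card hacard (J + 1)
      nlinarith
    · intro P₁ hP₁ hP₁v hP₁0 y₂ hy₂
      refine hk2 J ((q + R (J + 1) + 1) * D) (fun l hl => ?_) K hK ?_ P₁ hP₁ (fun p hp => ?_) hP₁0 y₂
        (fun l hl i hi => ?_)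
      · refine Nat.mul_le_mul ?_ (hD l (hJ.trans hl))
        have h3 : R (J + 1) ≤ R (l + 1) :=
          Finset.sum_le_sum_of_subset (Finset.range_mono (by omega))
        omega
      · refine hKD.trans ?_
        exact Nat.le_mul_of_pos_left _ (by omega)
      · have h3 := hP₁v p hp
        rw [← h1] at h3
        obtain ⟨l, -, h4⟩ := mem_Us.1 h3
        obtain ⟨i, hi, h5⟩ := (hmem l _).1 h4
        exact ⟨l, i, hi, h5⟩
      · exact hy₂ _ (mem_Us.2 ⟨l, hl, (hmem l _).2 ⟨i, hi, rfl⟩⟩)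
  -- all variables are in a finite part
  obtain ⟨J₁, hJ₁⟩ : ∃ J₁, ∀ p : ℕ × Unit, Sum.inr p ∈ P'.vars → p.1 ∈ Us a J₁ := by
    have hv : ∀ p : ℕ × Unit, Sum.inr p ∈ P'.vars → ∃ J, p.1 ∈ a J := by
      intro p hp
      obtain ⟨i, hi, h3⟩ := Finset.mem_image.1 (vars_rename _ P hp)
      rcases i with i | i
      · exact absurd h3 Sum.inl_ne_inr
      · have h4 : (i, ()) = p := Sum.inr.inj h3
        rw [← h4]
        obtain ⟨l, i', hi', h5⟩ := hPv i hi
        exact ⟨l, (hmem l _).2 ⟨i', hi', h5⟩⟩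
    choose f hf using fun p : {p : ℕ × Unit // Sum.inr p ∈ P'.vars} => hv p.1 p.2
    have hfin : Finite {p : ℕ × Unit // Sum.inr p ∈ P'.vars} := by
      have h1 : Function.Injective fun p : {p : ℕ × Unit // Sum.inr p ∈ P'.vars} =>
          (⟨Sum.inr p.1, p.2⟩ : P'.vars) := by
        intro p p' hpp
        have h2 := congrArg Subtype.val hpp
        exact Subtype.ext (Sum.inr.inj h2)
      exact Finite.of_injective _ h1
    obtain ⟨B, hB⟩ := (Set.finite_range f).bddAbove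
    refine ⟨B + 1, fun p hp => mem_Us.2 ⟨f ⟨p, hp⟩, ?_, hf ⟨p, hp⟩⟩⟩
    exact Nat.lt_succ_of_le (hB ⟨⟨p, hp⟩, rfl⟩)
  have hbig : ∀ J, J₁ ≤ J → Gp w P' x' (Us a J) = 0 := by
    intro J hJ
    apply MvPolynomial.funext
    intro u
    rw [eval_Gp, map_zero, ← hP0]
    have h1 : aeval (Sum.elim w x) P = aeval (Sum.elim w fun p : ℕ × Unit => x' p.1 p.2) P' := (hP'e x').symm
    rw [h1]
    refine eval₂Hom_congr' rfl ?_ rfl
    intro i hi _
    rcases i with i | p
    · rfl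
    · obtain ⟨i', hi', h1⟩ := mem_Us.1 (hJ₁ p hi)
      have h2 : p.1 ∈ Us a J := mem_Us.2 ⟨i', by omega, h1⟩
      simp only [Sum.elim_inr]
      rw [if_pos h2]
  have hdown : ∀ m J, J + m = max J₁ j₀ → j₀ ≤ J → Gp w P' x' (Us a J) = 0 := by
    intro m
    induction m with
    | zero =>
      intro J hJ _
      exact hbig J (by
        have := le_max_left J₁ j₀
        omega)
    | succ m ih =>
      intro J hJ hJ0
      exact hstep J hJ0 (ih (J + 1) (by omega) (by omega))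
  have hfin := hdown (max J₁ j₀ - j₀) j₀ (by
    have := le_max_right J₁ j₀
    omega) le_rfl
  have h1 := eval_Gp w P' x' (Us a j₀) (fun p => y p.1)
  rw [hfin, map_zero] at h1
  have h2 : aeval (Sum.elim w y) P = aeval (Sum.elim w fun p : ℕ × Unit => (fun n (_ : Unit) => y n) p.1 p.2) P' :=
    (hP'e fun n _ => y n).symm
  rw [h1, h2]
  congr 2
  funext i
  rcases i with i | p
  · rfl
  · simp only [Sum.elim_inr]
    by_cases h2 : p.1 ∈ Us a j₀
    · rw [if_pos h2]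
      obtain ⟨i, hi, h3⟩ := mem_Us.1 h2
      obtain ⟨i', hi', h4⟩ := (hmem i _).1 h3
      rw [h4]
      exact hy i hi i' hi'
    · rw [if_neg h2]

end Pool.Agent.Run7.h643.IS
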